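import Mathlib
import Pool.Agent.Q52.HE.Asm2
import Pool.Agent.Q52.HE.Norm
import Pool.Agent.Q52.HE.Grad
import Pool.Agent.Q52.HE.Relat
import Pool.Agent.Q52.HE.Pencil
import Pool.Agent.Q285.HE.Rat
import Pool.Agent.Q285.HE.Chi
import Pool.Agent.Q285.HE.Small
import Pool.Agent.Q177.HE.E0
import Pool.Agent.Q275.HE.E16B
import Pool.Agent.Q238.HE.Inj
import Pool.Agent.Q190.HE.All
import Pool.Agent.Q210.HE.Split5
import Pool.Agent.Q210.HE.Tri

/-!
# Hyperbolic and elliptic lines on cubic surfaces over `F_q` with 27 rational lines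

`K` is an algebraically closed field and `F` a finite subfield of odd order `q`. Points of the
projective space over `K` are given by nonzero vectors of `Fin 4 → K`, lines by subspaces of
dimension two. A cubic surface over `F` is given by a cubic form `∑ a_ijk x_i x_j x_k` with
coefficients in `F`.
-/

namespace Pool.Agent.Results.MP_f18d96_ag.AllPairs

variable {K : Type} [Field K]

/-- the value at `x` of the cubic form `∑ a_ijk x_i x_j x_k` -/
def value (a : Fin 4 → Fin 4 → Fin 4 → K) (x : Fin 4 → K) : K :=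
  ∑ i, ∑ j, ∑ k, a i j k * x i * x j * x k

/-- its gradient at `x` (the `m`-th entry is the partial derivative with respect to `x_m`); the
tangent plane at a point `x` of the surface is given by this linear form -/
def gradient (a : Fin 4 → Fin 4 → Fin 4 → K) (x : Fin 4 → K) : Fin 4 → K :=
  fun m => ∑ i, ∑ j, (a m i j + a i m j + a i j m) * x i * x j

/-- the coordinates of the vector are in `F` -/
def Rational (F : Subfield K) (v : Fin 4 → K) : Prop := ∀ i, v i ∈ F

/-- the set of the lines over `K` on the surface -/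
def LinesOn (a : Fin 4 → Fin 4 → Fin 4 → K) : Set (Submodule K (Fin 4 → K)) :=
  {W | Module.finrank K W = 2 ∧ ∀ p ∈ W, value a p = 0}

/-- the line `W` is defined over `F` -/
def DefinedOver (F : Subfield K) (W : Submodule K (Fin 4 → K)) : Prop :=
  ∃ u v, Rational F u ∧ Rational F v ∧ W = Submodule.span K {u, v}

/-- the surface over `K` is smooth -/
def Smooth (a : Fin 4 → Fin 4 → Fin 4 → K) : Prop :=
  ∀ p, p ≠ 0 → value a p = 0 → gradient a p ≠ 0

/-- a smooth cubic surface over `F` with 27 lines, all of them defined over `F` -/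
def Split (F : Subfield K) (a : Fin 4 → Fin 4 → Fin 4 → K) : Prop :=
  (∀ i j k, a i j k ∈ F) ∧ Smooth a ∧ (LinesOn a).ncard = 27 ∧
    ∀ W ∈ LinesOn a, DefinedOver F W

/-- the tangent planes at `p` and at `p'` are equal -/
def SameTangentPlane (a : Fin 4 → Fin 4 → Fin 4 → K) (p p' : Fin 4 → K) : Prop :=
  ∃ c : K, c ≠ 0 ∧ gradient a p' = c • gradient a p

/-- `p` is a fixed point of Segre's involution of the line `W`, the nontrivial deck transformation of
the map from `W` to the planes containing `W` which sends a point to its tangent plane (it has degree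
two): no other point of the line has the same tangent plane as `p`. -/
def FixedPoint (a : Fin 4 → Fin 4 → Fin 4 → K) (W : Submodule K (Fin 4 → K)) (p : Fin 4 → K) :
    Prop :=
  p ∈ W ∧ p ≠ 0 ∧ ∀ p' ∈ W, p' ≠ 0 → SameTangentPlane a p p' → ∃ c : K, p' = c • p

/-- hyperbolic line: there are two different fixed points rational over `F` -/
def Hyperbolic (F : Subfield K) (a : Fin 4 → Fin 4 → Fin 4 → K)
    (W : Submodule K (Fin 4 → K)) : Prop :=
  ∃ u v, Rational F u ∧ Rational F v ∧ FixedPoint a W u ∧ FixedPoint a W v ∧ ∀ c : K, v ≠ c • u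

/-- elliptic line: no fixed point is rational over `F` -/
def Elliptic (F : Subfield K) (a : Fin 4 → Fin 4 → Fin 4 → K)
    (W : Submodule K (Fin 4 → K)) : Prop :=
  ∀ u, Rational F u → ¬ FixedPoint a W u

/-- `H(X)`, the number of hyperbolic lines on the surface -/
noncomputable def H (F : Subfield K) (a : Fin 4 → Fin 4 → Fin 4 → K) : ℕ :=
  {W | W ∈ LinesOn a ∧ Hyperbolic F a W}.ncard

/-- `E(X)`, the number of elliptic lines on the surface -/
noncomputable def E (F : Subfield K) (a : Fin 4 → Fin 4 → Fin 4 → K) : ℕ :=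
  {W | W ∈ LinesOn a ∧ Elliptic F a W}.ncard

/-- **Theorem.** The pairs `(H, E)` for the cubic surfaces over the field `F` with `q` elements, `q`
odd, with 27 lines defined over `F`: there are none for `q = 3` and `q = 5`, only `(27, 0)` for
`q = 7`, exactly `(27, 0)` and `(15, 12)` for `q = 9, 11, 13`, and exactly `(27, 0)`, `(15, 12)` and
`(11, 16)` for all `q ≥ 17`. -/
theorem result (K : Type) [Field K] [IsAlgClosed K] (F : Subfield K) [Finite F]
    (hodd : Odd (Nat.card F)) :
    {p : ℕ × ℕ | ∃ a : Fin 4 → Fin 4 → Fin 4 → K, Split F a ∧ p = (H F a, E F a)} =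
      if Nat.card F < 7 then ∅ else if Nat.card F = 7 then {(27, 0)}
      else if Nat.card F < 17 then {(27, 0), (15, 12)} else {(27, 0), (15, 12), (11, 16)} :=
  Pool.Agent.Q52.HE.main Pool.Agent.Q52.HE.pencil Pool.Agent.Q52.HE.rel Pool.Agent.Q52.HE.grd
    Pool.Agent.Q52.HE.nf Pool.Agent.Q210.HE.split5
    (Pool.Agent.Q210.HE.tri Pool.Agent.Q52.HE.grd Pool.Agent.Q52.HE.pencil Pool.Agent.Q52.HE.nf
      Pool.Agent.Q210.HE.split5 Pool.Agent.Q285.HE.mem Pool.Agent.Q52.HE.rel)
    (Pool.Agent.Q52.HE.hyp Pool.Agent.Q52.HE.pencil)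
    (Pool.Agent.Q285.HE.rat Pool.Agent.Q285.HE.mem) Pool.Agent.Q285.HE.mem Pool.Agent.Q190.HE.all
    Pool.Agent.Q238.HE.inj (Pool.Agent.Q177.HE.type Pool.Agent.Q52.HE.pencil)
    Pool.Agent.Q285.HE.chi Pool.Agent.Q285.HE.small Pool.Agent.Q177.HE.e0 Pool.Agent.Q177.HE.e12
    Pool.Agent.Q275.HE.e16a Pool.Agent.Q275.HE.e16b K F hodd

end Pool.Agent.Results.MP_f18d96_ag.AllPairs
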